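import Pool.Agent.Helper27.CD.Spec

/-!
# CD, part P2: the entropy inequality
-/

set_option autoImplicit false

namespace Helper27.CD.P2

open Finset Function

variable {ι : Type} [Fintype ι] [DecidableEq ι]

omit [Fintype ι] [DecidableEq ι] in
lemma sum_fiber (A : Finset (ι → ZMod 3)) (P : (ι → ZMod 3) → ℝ) (i : ι) (g : ZMod 3 → ℝ) :
    ∑ s, (∑ a ∈ A, if a i = s then P a else 0) * g s = ∑ a ∈ A, P a * g (a i) := by
  simp_rw [sum_mul]
  rw [sum_comm]
  apply sum_congr rfl
  intro a _
  simp

/-- subadditivity of entropy for an injective projection -/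
lemma gibbs (A : Finset (ι → ZMod 3)) (P : (ι → ZMod 3) → ℝ) (hP : ∀ a ∈ A, 0 < P a)
    (h1 : ∑ a ∈ A, P a = 1) (I : Finset ι)
    (hI : ∀ a ∈ A, ∀ a' ∈ A, (∀ i ∈ I, a i = a' i) → a = a') :
    ∑ a ∈ A, Real.negMulLog (P a) ≤
      ∑ i ∈ I, ∑ s, Real.negMulLog (∑ a ∈ A, if a i = s then P a else 0) := by
  set m : ι → ZMod 3 → ℝ := fun i s => ∑ a ∈ A, if a i = s then P a else 0 with hm
  have hm0 : ∀ i s, 0 ≤ m i s := by
    intro i s
    apply sum_nonneg
    intro a ha
    split_ifs
    · exact (hP a ha).le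
    · exact le_rfl
  have hm1 : ∀ i, ∑ s, m i s = 1 := by
    intro i
    have := sum_fiber A P i (fun _ => 1)
    simp only [mul_one] at this
    rw [← h1, ← this]
  have hmpos : ∀ i, ∀ a ∈ A, 0 < m i (a i) := by
    intro i a ha
    apply sum_pos'
    · intro a' ha'
      split_ifs
      · exact (hP a' ha').le
      · exact le_rfl
    · exact ⟨a, ha, by simpa using hP a ha⟩
  set R : (ι → ZMod 3) → ℝ := fun a => ∏ i ∈ I, m i (a i) with hR
  have hRpos : ∀ a ∈ A, 0 < R a := fun a ha => prod_pos fun i _ => hmpos i a ha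
  have hRsum : ∑ a ∈ A, R a ≤ 1 := by
    set m' : ι → ZMod 3 → ℝ := fun i s => if i ∈ I then m i s else if s = 0 then 1 else 0 with hm'
    set c : (ι → ZMod 3) → (ι → ZMod 3) := fun a i => if i ∈ I then a i else 0 with hc
    have hm'0 : ∀ i s, 0 ≤ m' i s := by
      intro i s
      rw [hm']
      simp only
      split_ifs
      · exact hm0 i s
      · exact zero_le_one
      · exact le_rfl
    have hcinj : Set.InjOn c A := by
      intro a ha a' ha' heq
      apply hI a ha a' ha'
      intro i hi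
      have := congrFun heq i
      rw [hc] at this
      simpa [hi] using this
    have hRc : ∀ a, R a = ∏ i, m' i (c a i) := by
      intro a
      rw [hR, ← prod_subset (subset_univ I)]
      · apply prod_congr rfl
        intro i hi
        rw [hm', hc]
        simp [hi]
      · intro i _ hi
        rw [hm', hc]
        simp [hi]
    have htot : ∑ x : ι → ZMod 3, ∏ i, m' i (x i) = 1 := by
      have h := Finset.prod_univ_sum (fun _ : ι => (univ : Finset (ZMod 3))) m'
      rw [Fintype.piFinset_univ] at h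
      rw [← h]
      apply prod_eq_one
      intro i _
      by_cases hi : i ∈ I
      · rw [← hm1 i]
        apply sum_congr rfl
        intro s _
        rw [hm']
        simp [hi]
      · rw [hm']
        simp [hi]
    calc ∑ a ∈ A, R a = ∑ x ∈ A.image c, ∏ i, m' i (x i) := by
          rw [sum_image hcinj]
          exact sum_congr rfl fun a _ => hRc a
      _ ≤ ∑ x : ι → ZMod 3, ∏ i, m' i (x i) :=
          sum_le_sum_of_subset_of_nonneg (subset_univ _)
            fun x _ _ => prod_nonneg fun i _ => hm'0 i _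
      _ = 1 := htot
  have hlog : ∀ a ∈ A, Real.negMulLog (P a) ≤ - (P a * Real.log (R a)) + (R a - P a) := by
    intro a ha
    have hPa := hP a ha
    have hRa := hRpos a ha
    have h2 := Real.log_le_sub_one_of_pos (div_pos hRa hPa)
    rw [Real.log_div hRa.ne' hPa.ne'] at h2
    have h3 := mul_le_mul_of_nonneg_left h2 hPa.le
    have h4 : P a * (R a / P a - 1) = R a - P a := by field_simp
    rw [h4] at h3
    rw [Real.negMulLog]
    linarith
  have h2 := sum_le_sum hlog
  rw [sum_add_distrib, sum_neg_distrib, sum_sub_distrib, h1] at h2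
  have h3 : ∑ a ∈ A, P a * Real.log (R a) = ∑ i ∈ I, ∑ s, m i s * Real.log (m i s) := by
    have : ∀ a ∈ A, P a * Real.log (R a) = ∑ i ∈ I, P a * Real.log (m i (a i)) := by
      intro a ha
      rw [hR]
      simp only
      rw [Real.log_prod fun i _ => (hmpos i a ha).ne', mul_sum]
    rw [sum_congr rfl this, sum_comm]
    apply sum_congr rfl
    intro i _
    rw [← sum_fiber A P i (fun s => Real.log (m i s))]
  rw [h3] at h2
  have h4 : ∑ i ∈ I, ∑ s, Real.negMulLog (m i s) = - ∑ i ∈ I, ∑ s, m i s * Real.log (m i s) := by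
    simp only [Real.negMulLog, neg_mul, sum_neg_distrib]
  rw [h4]
  linarith

omit [DecidableEq ι] in
lemma W_pos {p : ℝ} (h0 : 0 < p) (h1 : p < 1) (a b : ι → ZMod 3) : 0 < W p a b := by
  unfold W
  apply prod_pos
  intro i _
  split_ifs <;> linarith

omit [DecidableEq ι] in
lemma log_W {p : ℝ} (h0 : 0 < p) (h1 : p < 1) (a b : ι → ZMod 3) :
    Real.log (W p a b) = ∑ i, if a i = b i then Real.log (1 - p) else Real.log (p / 2) := by
  unfold W
  rw [Real.log_prod]
  · apply sum_congr rfl
    intro i _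
    split_ifs <;> rfl
  · intro i _
    split_ifs
    · exact (by linarith : (0 : ℝ) < 1 - p).ne'
    · exact (by linarith : (0 : ℝ) < p / 2).ne'

omit [DecidableEq ι] in
lemma W_eq (p : ℝ) (a b : ι → ZMod 3) :
    W p a b = (p / 2) ^ hammingDist a b * (1 - p) ^ (Fintype.card ι - hammingDist a b) := by
  unfold W
  rw [prod_ite, prod_const, prod_const, mul_comm]
  congr 1
  congr 1
  have h := card_filter_add_card_filter_not (s := (univ : Finset ι)) (fun i => a i = b i)
  rw [card_univ] at h
  have h2 : hammingDist a b = (univ.filter (fun i => ¬ a i = b i)).card := rfl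
  omega

omit [DecidableEq ι] in
lemma W_mul {p : ℝ} {A B : Finset (ι → ZMod 3)} (h : AddPair A B) {a a₀ b b₀ : ι → ZMod 3}
    (ha : a ∈ A) (ha₀ : a₀ ∈ A) (hb : b ∈ B) (hb₀ : b₀ ∈ B) :
    W p a b * W p a₀ b₀ = W p a b₀ * W p a₀ b := by
  have h1 := h a ha a₀ ha₀ b hb b₀ hb₀
  have c : ∀ x y : ι → ZMod 3, hammingDist x y ≤ Fintype.card ι := fun x y =>
    hammingDist_le_card_fintype
  rw [W_eq, W_eq, W_eq, W_eq, mul_mul_mul_comm ((p / 2) ^ hammingDist a b),
    mul_mul_mul_comm ((p / 2) ^ hammingDist a b₀), ← pow_add, ← pow_add,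
    ← pow_add, ← pow_add, h1]
  congr 2
  have := c a b
  have := c a₀ b₀
  have := c a b₀
  have := c a₀ b
  omega

theorem ent_thm : S_ent := by
  intro ι _ _ p A B hp0 hp1 hA hB h I hAI hBI
  obtain ⟨a₀, ha₀⟩ := hA
  obtain ⟨b₀, hb₀⟩ := hB
  have hW : ∀ a b : ι → ZMod 3, 0 < W p a b := fun a b => W_pos hp0 hp1 a b
  set F : (ι → ZMod 3) → ℝ := fun a => W p a b₀ with hF
  set G : (ι → ZMod 3) → ℝ := fun b => W p a₀ b / W p a₀ b₀ with hG
  have hFG : ∀ a ∈ A, ∀ b ∈ B, W p a b = F a * G b := by
    intro a ha b hb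
    have h1 := W_mul (p := p) h ha ha₀ hb hb₀
    rw [hF, hG]
    simp only
    rw [← mul_div_assoc, ← h1]
    field_simp [(hW a₀ b₀).ne']
  have hFpos : ∀ a, 0 < F a := fun a => hW _ _
  have hGpos : ∀ b, 0 < G b := fun b => div_pos (hW _ _) (hW _ _)
  set SF := ∑ a ∈ A, F a with hSF
  set SG := ∑ b ∈ B, G b with hSG
  have hSFpos : 0 < SF := sum_pos (fun a _ => hFpos a) ⟨a₀, ha₀⟩
  have hSGpos : 0 < SG := sum_pos (fun b _ => hGpos b) ⟨b₀, hb₀⟩
  have hT : T p A B = SF * SG := by
    unfold T
    rw [hSF, hSG, sum_mul_sum]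
    exact sum_congr rfl fun a ha => sum_congr rfl fun b hb => hFG a ha b hb
  set P : (ι → ZMod 3) → ℝ := fun a => F a / SF with hP
  set Q : (ι → ZMod 3) → ℝ := fun b => G b / SG with hQ
  have hPpos : ∀ a, 0 < P a := fun a => div_pos (hFpos a) hSFpos
  have hQpos : ∀ b, 0 < Q b := fun b => div_pos (hGpos b) hSGpos
  have hP1 : ∑ a ∈ A, P a = 1 := by
    rw [hP, ← sum_div, ← hSF, div_self hSFpos.ne']
  have hQ1 : ∑ b ∈ B, Q b = 1 := by
    rw [hQ, ← sum_div, ← hSG, div_self hSGpos.ne']
  have hPQ : ∀ a ∈ A, ∀ b ∈ B, W p a b / T p A B = P a * Q b := by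
    intro a ha b hb
    rw [hFG a ha b hb, hT, hP, hQ]
    simp only
    field_simp
  have hal : ∀ i s, al p A B i s = ∑ a ∈ A, if a i = s then P a else 0 := by
    intro i s
    unfold al
    rw [sum_div]
    apply sum_congr rfl
    intro a ha
    rw [sum_div]
    by_cases has : a i = s
    · simp only [has, if_true]
      rw [sum_congr rfl (fun b hb => hPQ a ha b hb), ← mul_sum, hQ1, mul_one]
    · simp [has]
  have hbe : ∀ i s, be p A B i s = ∑ b ∈ B, if b i = s then Q b else 0 := by
    intro i s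
    unfold be
    rw [sum_comm, sum_div]
    apply sum_congr rfl
    intro b hb
    rw [sum_div]
    by_cases hbs : b i = s
    · simp only [hbs, if_true]
      rw [sum_congr rfl (fun a ha => hPQ a ha b hb), ← sum_mul, hP1, one_mul]
    · simp [hbs]
  have gP := gibbs A P (fun a _ => hPpos a) hP1 I hAI
  have gQ := gibbs B Q (fun b _ => hQpos b) hQ1 Iᶜ
    (fun b hb b' hb' hbb => hBI b hb b' hb' fun i hi => hbb i (mem_compl.2 hi))
  simp only [← hal, ← hbe] at gP gQ
  -- the logarithm of `T`
  have hlog : ∀ a ∈ A, ∀ b ∈ B,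
      Real.log (T p A B) = Real.log (W p a b) - Real.log (P a) - Real.log (Q b) := by
    intro a ha b hb
    have hTpos : 0 < T p A B := by rw [hT]; positivity
    have h1 := congrArg Real.log (hPQ a ha b hb)
    rw [Real.log_div (hW a b).ne' hTpos.ne', Real.log_mul (hPpos a).ne' (hQpos b).ne'] at h1
    linarith
  have hlogT : Real.log (T p A B) = (∑ a ∈ A, ∑ b ∈ B, P a * Q b * Real.log (W p a b)) +
      ∑ a ∈ A, Real.negMulLog (P a) + ∑ b ∈ B, Real.negMulLog (Q b) := by
    have h1 : Real.log (T p A B) = ∑ a ∈ A, ∑ b ∈ B, P a * Q b * Real.log (T p A B) := by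
      simp_rw [← sum_mul, ← mul_sum, hQ1, mul_one, hP1, one_mul]
    have h2 : ∑ a ∈ A, ∑ b ∈ B, P a * Q b * Real.log (T p A B) =
        ∑ a ∈ A, ∑ b ∈ B, (P a * Q b * Real.log (W p a b) + Real.negMulLog (P a) * Q b +
          P a * Real.negMulLog (Q b)) := by
      apply sum_congr rfl
      intro a ha
      apply sum_congr rfl
      intro b hb
      rw [hlog a ha b hb, Real.negMulLog, Real.negMulLog]
      ring
    rw [h1, h2]
    simp_rw [sum_add_distrib, ← mul_sum, hQ1, mul_one]
    rw [← sum_mul, hP1, one_mul]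
  -- the expectation of `log W`
  have hE : ∑ a ∈ A, ∑ b ∈ B, P a * Q b * Real.log (W p a b) =
      ∑ i, ((∑ s, al p A B i s * be p A B i s) * Real.log (1 - p) +
        (1 - ∑ s, al p A B i s * be p A B i s) * Real.log (p / 2)) := by
    have h1 : ∀ i, ∑ a ∈ A, ∑ b ∈ B, P a * Q b *
        (if a i = b i then Real.log (1 - p) else Real.log (p / 2)) =
        (∑ s, al p A B i s * be p A B i s) * Real.log (1 - p) +
        (1 - ∑ s, al p A B i s * be p A B i s) * Real.log (p / 2) := by
      intro i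
      have h2 : ∑ s, al p A B i s * be p A B i s =
          ∑ a ∈ A, ∑ b ∈ B, P a * Q b * (if a i = b i then 1 else 0) := by
        have h3 := sum_fiber A P i (fun s => be p A B i s)
        simp only [← hal] at h3
        rw [h3]
        apply sum_congr rfl
        intro a _
        rw [hbe, mul_sum]
        apply sum_congr rfl
        intro b _
        by_cases hab : a i = b i
        · simp [hab]
        · have : ¬ b i = a i := fun h => hab h.symm
          simp [hab, this]
      have h4 : (1 : ℝ) = ∑ a ∈ A, ∑ b ∈ B, P a * Q b := by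
        simp_rw [← mul_sum, hQ1, mul_one, hP1]
      rw [h2]
      have h5 : ∀ a b : ι → ZMod 3, P a * Q b *
          (if a i = b i then Real.log (1 - p) else Real.log (p / 2)) =
          (P a * Q b * (if a i = b i then 1 else 0)) * (Real.log (1 - p) - Real.log (p / 2)) +
            P a * Q b * Real.log (p / 2) := by
        intro a b
        split_ifs <;> ring
      simp_rw [h5, sum_add_distrib, ← sum_mul, ← h4]
      ring
    calc ∑ a ∈ A, ∑ b ∈ B, P a * Q b * Real.log (W p a b)
        = ∑ a ∈ A, ∑ b ∈ B, ∑ i, P a * Q b *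
          (if a i = b i then Real.log (1 - p) else Real.log (p / 2)) := by
          simp_rw [log_W hp0 hp1, mul_sum]
      _ = ∑ i, ∑ a ∈ A, ∑ b ∈ B, P a * Q b *
          (if a i = b i then Real.log (1 - p) else Real.log (p / 2)) := by
          rw [sum_congr rfl fun a (_ : a ∈ A) => sum_comm]
          exact sum_comm
      _ = _ := sum_congr rfl fun i _ => h1 i
  rw [hlogT, hE]
  have hsplit : ∀ f : ι → ℝ, ∑ i, f i = ∑ i ∈ I, f i + ∑ i ∈ Iᶜ, f i := fun f =>
    (sum_add_sum_compl I f).symm
  rw [hsplit]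
  unfold phi
  have hcomm : ∀ i, ∑ s, be p A B i s * al p A B i s = ∑ s, al p A B i s * be p A B i s :=
    fun i => sum_congr rfl fun s _ => mul_comm _ _
  simp only [hcomm, sum_add_distrib] at *
  linarith

end Helper27.CD.P2
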