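import Pool.Agent.Helper27.CD.Spec

/-!
# CD, part P4: cleaning one coordinate
-/

set_option autoImplicit false

namespace Helper27.CD.P4

open Finset Function

variable {ι : Type} [Fintype ι] [DecidableEq ι]

lemma dist_split (a b : ι → ZMod 3) (i : ι) :
    hammingDist a b = (if a i ≠ b i then 1 else 0) +
      ∑ j ∈ univ.erase i, (if a j ≠ b j then 1 else 0) := by
  rw [hammingDist, card_filter]
  exact (add_sum_erase univ (fun j => if a j ≠ b j then 1 else 0) (mem_univ i)).symm

lemma sum_erase_congr {a a' : ι → ZMod 3} (b : ι → ZMod 3) (i : ι) (h : ∀ j, j ≠ i → a j = a' j) :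
    ∑ j ∈ univ.erase i, (if a j ≠ b j then 1 else 0) =
      ∑ j ∈ univ.erase i, (if a' j ≠ b j then 1 else 0) :=
  sum_congr rfl fun j hj => by rw [h j (ne_of_mem_erase hj)]

lemma third' : ∀ x y z w : ZMod 3, x = y ∨ z = x ∨ z = y ∨ w = x ∨ w = y ∨ z = w := by decide

lemma third (x y z w : ZMod 3) (h1 : x ≠ y) (h2 : z ≠ x) (h3 : z ≠ y) (h4 : w ≠ x)
    (h5 : w ≠ y) : z = w := by
  rcases third' x y z w with h | h | h | h | h | h
  all_goals first | exact h | exact absurd h ‹_›

lemma l01 (s : ZMod 3) : s ≠ s + 1 := by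
  revert s
  decide

lemma l02 (s : ZMod 3) : s ≠ s + 2 := by
  revert s
  decide

lemma l12 (s : ZMod 3) : s + 1 ≠ s + 2 := by
  revert s
  decide

theorem clean_thm : S_clean := by
  intro ι _ _ A B δ h i hB s
  have hinj : ∀ a ∈ A, ∀ a' ∈ A, (∀ j, j ≠ i → a j = a' j) → a = a' := by
    intro a ha a' ha' hj
    by_contra hne
    have hi : a i ≠ a' i := by
      intro hi
      apply hne
      funext j
      by_cases hji : j = i
      · rw [hji, hi]
      · exact hj j hji
    have key : ∀ b ∈ B, b i ≠ a i ∧ b i ≠ a' i := by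
      intro b hb
      have h1 := h a ha b hb
      have h2 := h a' ha' b hb
      rw [dist_split a b i, sum_erase_congr b i hj] at h1
      rw [dist_split a' b i] at h2
      constructor
      · intro h3
        rw [if_neg (by rw [h3]; simp)] at h1
        rw [if_pos (by rw [h3]; exact hi.symm)] at h2
        omega
      · intro h3
        rw [if_pos (by rw [h3]; exact hi)] at h1
        rw [if_neg (by rw [h3]; simp)] at h2
        omega
    apply hB
    intro b hb b' hb'
    exact third _ _ _ _ hi (key b hb).1 (key b hb).2 (key b' hb').1 (key b' hb').2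
  set C := A.filter (fun a => a i ≠ s) with hC
  set D := A.filter (fun a => a i = s) with hD
  have hIm : ∀ t : ZMod 3, (C.image (fun a => update a i t)).card = C.card := by
    intro t
    apply card_image_of_injOn
    intro a ha a' ha' haa
    rw [mem_coe, hC, mem_filter] at ha ha'
    apply hinj a ha.1 a' ha'.1
    intro j hji
    have := congrFun haa j
    simpa [update_of_ne hji] using this
  have hIi : ∀ t : ZMod 3, ∀ x ∈ C.image (fun a => update a i t), x i = t := by
    intro t x hx
    obtain ⟨a, -, rfl⟩ := mem_image.1 hx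
    simp
  have hDi : ∀ x ∈ D, x i = s := fun x hx => (mem_filter.1 hx).2
  have h01 : s ≠ s + 1 := l01 s
  have h02 : s ≠ s + 2 := l02 s
  have h12 : s + 1 ≠ s + 2 := l12 s
  have hd1 : Disjoint D (C.image (fun a => update a i (s + 1))) := by
    rw [disjoint_left]
    intro x hx hx'
    exact h01 ((hDi x hx).symm.trans (hIi _ x hx'))
  have hd2 : Disjoint (D ∪ C.image (fun a => update a i (s + 1)))
      (C.image (fun a => update a i (s + 2))) := by
    rw [disjoint_left]
    intro x hx hx'
    rcases mem_union.1 hx with hx | hx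
    · exact h02 ((hDi x hx).symm.trans (hIi _ x hx'))
    · exact h12 ((hIi _ x hx).symm.trans (hIi _ x hx'))
  refine ⟨(D ∪ C.image (fun a => update a i (s + 1))) ∪ C.image (fun a => update a i (s + 2)),
    B.filter (fun b => b i = s), ?_, ?_⟩
  · have hup : ∀ t : ZMod 3, t ≠ s → ∀ x ∈ C.image (fun a => update a i t),
        ∀ b ∈ B, b i = s → hammingDist x b = δ := by
      intro t ht x hx b hb hbs
      obtain ⟨a, ha, rfl⟩ := mem_image.1 hx
      have ha' := mem_filter.1 ha
      rw [← h a ha'.1 b hb, dist_split _ b i, dist_split a b i,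
        sum_erase_congr b i (fun j hj => update_of_ne hj t a)]
      have e1 : update a i t i ≠ b i := by rw [hbs]; simpa using ht
      have e2 : a i ≠ b i := by rw [hbs]; exact ha'.2
      rw [if_pos e1, if_pos e2]
    intro x hx b hb
    have hb' := mem_filter.1 hb
    rcases mem_union.1 hx with hx | hx
    · rcases mem_union.1 hx with hx | hx
      · exact h x (mem_filter.1 hx).1 b hb'.1
      · exact hup _ h01.symm x hx b hb'.1 hb'.2
    · exact hup _ h02.symm x hx b hb'.1 hb'.2
  · rw [card_union_of_disjoint hd2, card_union_of_disjoint hd1, hIm, hIm]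
    ring

end Helper27.CD.P4
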