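import Pool.Agent.Helper27.CD.Spec

/-!
# CD, part P5: rigidity of pairs of large mass
-/

set_option autoImplicit false

namespace Helper27.CD.P5

open Finset Function

variable {ι : Type} [Fintype ι] [DecidableEq ι]

/-- indicator of `x ≠ y` -/
def e (x y : ZMod 3) : ℤ := if x ≠ y then 1 else 0

omit [DecidableEq ι] in
lemma dist_eq (a b : ι → ZMod 3) : (hammingDist a b : ℤ) = ∑ k, e (a k) (b k) := by
  rw [hammingDist, card_filter]
  push_cast
  rfl

lemma e_self (x : ZMod 3) : e x x = 0 := by simp [e]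

lemma e_comm (x y : ZMod 3) : e x y = e y x := by simp [e, ne_comm]

lemma e_of_ne {x y : ZMod 3} (h : x ≠ y) : e x y = 1 := by simp [e, h]

lemma e_nonneg (x y : ZMod 3) : 0 ≤ e x y := by
  unfold e; split_ifs <;> simp

lemma e_le_one (x y : ZMod 3) : e x y ≤ 1 := by
  unfold e; split_ifs <;> simp

lemma refl_ne : ∀ x u : ZMod 3, x ≠ u → 2 * u - x ≠ u := by decide

lemma e_refl' : ∀ x u b : ZMod 3, x = u ∨ b = u ∨ e x b + e (2 * u - x) b = 1 := by decide

lemma e_refl {x u b : ZMod 3} (h1 : x ≠ u) (h2 : b ≠ u) : e x b + e (2 * u - x) b = 1 := by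
  rcases e_refl' x u b with h | h | h
  · exact absurd h h1
  · exact absurd h h2
  · exact h

lemma sum_W (p : ℝ) (u : ι → ZMod 3) : ∑ z : ι → ZMod 3, W p z u = 1 := by
  unfold W
  have h := Finset.prod_univ_sum (fun _ : ι => (univ : Finset (ZMod 3)))
    (fun i s => if s = u i then 1 - p else p / 2)
  rw [Fintype.piFinset_univ] at h
  rw [← h]
  apply prod_eq_one
  intro i _
  generalize u i = v
  have h1 : ∀ s : ZMod 3, (if s = v then 1 - p else p / 2) =
      p / 2 + (if s = v then 1 - p - p / 2 else 0) := by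
    intro s
    split_ifs <;> ring
  rw [sum_congr rfl (fun s _ => h1 s), sum_add_distrib, sum_const, card_univ, ZMod.card,
    sum_ite_eq' univ v, if_pos (mem_univ v)]
  simp only [nsmul_eq_mul]
  push_cast
  ring

omit [DecidableEq ι] in
lemma W_pos {p : ℝ} (h0 : 0 < p) (h1 : p < 1) (a b : ι → ZMod 3) : 0 < W p a b := by
  unfold W
  apply prod_pos
  intro i _
  split_ifs <;> linarith

omit [DecidableEq ι] in
lemma W_comm (p : ℝ) (a b : ι → ZMod 3) : W p a b = W p b a := by
  unfold W
  apply prod_congr rfl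
  intro i _
  simp only [eq_comm]

lemma claim {p : ℝ} (hp0 : 0 < p) (hp1 : p < 1) {A B : Finset (ι → ZMod 3)} (h : AddPair A B)
    (I : Finset ι) (u : ι → ZMod 3)
    (hm : 1 / 2 < ∑ a ∈ A.filter (fun a => ∀ i, i ∉ I → a i = u i),
        ∑ b ∈ B.filter (fun b => ∀ i ∈ I, b i = u i), W p a b) :
    ∀ b' ∈ B, ∀ a₀ ∈ A, (∀ i, i ∉ I → a₀ i = u i) → ∀ k₀ ∈ I, b' k₀ ≠ u k₀ → a₀ k₀ = u k₀ := by
  intro b' hb' a₀ ha₀ ha₀u k₀ hk₀ hbk₀
  by_contra hak₀
  set Ag := A.filter (fun a => ∀ i, i ∉ I → a i = u i) with hAg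
  set Bg := B.filter (fun b => ∀ i ∈ I, b i = u i) with hBg
  have ha₀g : a₀ ∈ Ag := mem_filter.2 ⟨ha₀, ha₀u⟩
  obtain ⟨b₁, hb₁⟩ : Bg.Nonempty := by
    rw [nonempty_iff_ne_empty]
    intro he
    rw [he] at hm
    simp at hm
    linarith
  set D := I.filter (fun k => b' k ≠ u k) with hD
  set S : (ι → ZMod 3) → ℤ := fun z => ∑ k ∈ D, (e (z k) (u k) - e (z k) (b' k)) with hS
  have hconst : ∀ a ∈ Ag, S a = S a₀ := by
    intro a ha
    have ha' := mem_filter.1 ha
    have hb₁' := mem_filter.1 hb₁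
    have h1 := h a ha'.1 a₀ ha₀ b₁ hb₁'.1 b' hb'
    have h2 : (hammingDist a b₁ : ℤ) + hammingDist a₀ b' = hammingDist a b' + hammingDist a₀ b₁ := by
      exact_mod_cast h1
    rw [dist_eq, dist_eq, dist_eq, dist_eq, ← sum_add_distrib, ← sum_add_distrib, ← sub_eq_zero,
      ← sum_sub_distrib] at h2
    have h3 : ∑ k, (e (a k) (b₁ k) + e (a₀ k) (b' k) - (e (a k) (b' k) + e (a₀ k) (b₁ k))) =
        ∑ k ∈ D, (e (a k) (b₁ k) + e (a₀ k) (b' k) - (e (a k) (b' k) + e (a₀ k) (b₁ k))) := by
      symm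
      apply sum_subset (subset_univ _)
      intro k _ hk
      by_cases hkI : k ∈ I
      · have : b' k = u k := by
          by_contra hne
          exact hk (mem_filter.2 ⟨hkI, hne⟩)
        rw [this, hb₁'.2 k hkI]
        ring
      · rw [ha'.2 k hkI, ha₀u k hkI]
        ring
    rw [h3] at h2
    have h4 : S a - S a₀ = 0 := by
      rw [hS, ← h2]
      simp only
      rw [← sum_sub_distrib]
      apply sum_congr rfl
      intro k hk
      rw [hb₁'.2 k (mem_filter.1 hk).1]
      ring
    linarith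
  set E : (ι → ZMod 3) → Finset ι := fun z => D.filter (fun k => z k ≠ u k) with hE
  have hS₀ : -(D.card : ℤ) < S a₀ := by
    rw [hS]
    simp only
    have : -(D.card : ℤ) = ∑ k ∈ D, (-1 : ℤ) := by simp
    rw [this]
    apply sum_lt_sum
    · intro k _
      have h1 := e_nonneg (a₀ k) (u k)
      have h2 := e_le_one (a₀ k) (b' k)
      linarith
    · refine ⟨k₀, mem_filter.2 ⟨hk₀, hbk₀⟩, ?_⟩
      rw [e_of_ne hak₀]
      have h2 := e_le_one (a₀ k₀) (b' k₀)
      linarith
  have hEne : ∀ z, S z = S a₀ → (E z).Nonempty := by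
    intro z hz
    rw [nonempty_iff_ne_empty]
    intro he
    have h1 : S z = -(D.card : ℤ) := by
      rw [hS]
      simp only
      have : -(D.card : ℤ) = ∑ k ∈ D, (-1 : ℤ) := by simp
      rw [this]
      apply sum_congr rfl
      intro k hk
      have h2 : z k = u k := by
        by_contra hne
        have : k ∈ E z := mem_filter.2 ⟨hk, hne⟩
        rw [he] at this
        simp at this
      rw [h2, e_self, e_of_ne (mem_filter.1 hk).2.symm]
      ring
    linarith
  classical
  set pick : Finset ι → ι := fun F => if h : F.Nonempty then h.choose else k₀ with hpick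
  have hpick_mem : ∀ F : Finset ι, F.Nonempty → pick F ∈ F := by
    intro F hF
    rw [hpick]
    simp only [hF, dif_pos]
    exact hF.choose_spec
  set τ : (ι → ZMod 3) → (ι → ZMod 3) := fun z =>
    update z (pick (E z)) (2 * u (pick (E z)) - z (pick (E z))) with hτ
  -- properties of `τ` on the set where `E z` is nonempty
  have hτne : ∀ z k, k ≠ pick (E z) → τ z k = z k := by
    intro z k hk
    rw [hτ]
    exact update_of_ne hk _ _
  have hτp : ∀ z, τ z (pick (E z)) = 2 * u (pick (E z)) - z (pick (E z)) := by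
    intro z
    rw [hτ]
    exact update_self _ _ _
  have hEτ : ∀ z, (E z).Nonempty → E (τ z) = E z := by
    intro z hz
    have hm := mem_filter.1 (hpick_mem _ hz)
    apply filter_congr
    intro k _
    by_cases hk : k = pick (E z)
    · rw [hk, hτp]
      exact ⟨fun _ => hm.2, fun _ => refl_ne _ _ hm.2⟩
    · rw [hτne z k hk]
  have hττ : ∀ z, (E z).Nonempty → τ (τ z) = z := by
    intro z hz
    funext k
    have hE' := hEτ z hz
    by_cases hk : k = pick (E z)
    · have h1 := hτp (τ z)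
      rw [hE'] at h1
      rw [hk, h1, hτp]
      ring
    · rw [hτne (τ z) k (by rw [hE']; exact hk), hτne z k hk]
  have hSτ : ∀ z, (E z).Nonempty → S (τ z) ≠ S z := by
    intro z hz
    have hm := mem_filter.1 (hpick_mem _ hz)
    have hmD := mem_filter.1 hm.1
    have h1 : S (τ z) - S z = e (z (pick (E z))) (b' (pick (E z))) -
        e (2 * u (pick (E z)) - z (pick (E z))) (b' (pick (E z))) := by
      rw [hS]
      simp only
      rw [← sum_sub_distrib, sum_eq_single_of_mem _ hm.1]
      · rw [hτp, e_of_ne (refl_ne _ _ hm.2), e_of_ne hm.2]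
        ring
      · intro k _ hk
        rw [hτne z k hk]
        ring
    have h2 := e_refl (b := b' (pick (E z))) hm.2 hmD.2
    intro h3
    rw [h3, sub_self] at h1
    have h4 : 2 * e (z (pick (E z))) (b' (pick (E z))) = 1 := by linarith
    generalize e (z (pick (E z))) (b' (pick (E z))) = x at h4
    omega
  have hWτ : ∀ z, (E z).Nonempty → W p (τ z) u = W p z u := by
    intro z hz
    have hm := mem_filter.1 (hpick_mem _ hz)
    unfold W
    apply prod_congr rfl
    intro k _
    by_cases hk : k = pick (E z)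
    · rw [hk, hτp, if_neg (refl_ne _ _ hm.2), if_neg hm.2]
    · rw [hτne z k hk]
  -- the set `Z`
  set ζ : (ι → ZMod 3) × (ι → ZMod 3) → (ι → ZMod 3) :=
    fun ab k => if k ∈ I then ab.1 k else ab.2 k with hζ
  have hζinj : Set.InjOn ζ (Ag ×ˢ Bg : Finset _) := by
    rintro ⟨a, b⟩ hab ⟨a', b'⟩ hab' heq
    rw [mem_coe, mem_product] at hab hab'
    have h1 := mem_filter.1 hab.1
    have h2 := mem_filter.1 hab.2
    have h3 := mem_filter.1 hab'.1
    have h4 := mem_filter.1 hab'.2
    simp only at h1 h2 h3 h4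
    ext k
    · by_cases hk : k ∈ I
      · have := congrFun heq k
        rw [hζ] at this
        simp only [hk, if_true] at this
        exact this
      · exact (h1.2 k hk).trans (h3.2 k hk).symm
    · by_cases hk : k ∈ I
      · exact (h2.2 k hk).trans (h4.2 k hk).symm
      · have := congrFun heq k
        rw [hζ] at this
        simp only [hk, if_false] at this
        exact this
  have hmass : ∑ z ∈ (Ag ×ˢ Bg).image ζ, W p z u = ∑ a ∈ Ag, ∑ b ∈ Bg, W p a b := by
    rw [sum_image hζinj, sum_product]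
    apply sum_congr rfl
    intro a ha
    apply sum_congr rfl
    intro b hb
    have h1 := mem_filter.1 ha
    have h2 := mem_filter.1 hb
    unfold W
    apply prod_congr rfl
    intro k _
    rw [hζ]
    by_cases hk : k ∈ I
    · simp only [hk, if_true]
      rw [h2.2 k hk]
    · simp only [hk, if_false]
      rw [h1.2 k hk]
      simp only [eq_comm]
  have hZS : ∀ z ∈ (Ag ×ˢ Bg).image ζ, S z = S a₀ := by
    intro z hz
    obtain ⟨⟨a, b⟩, hab, rfl⟩ := mem_image.1 hz
    rw [← hconst a (mem_product.1 hab).1]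
    rw [hS]
    simp only
    apply sum_congr rfl
    intro k hk
    have : ζ (a, b) k = a k := by
      rw [hζ]
      simp only [(mem_filter.1 hk).1, if_true]
    rw [this]
  have hτinj : Set.InjOn τ ((Ag ×ˢ Bg).image ζ : Finset _) := by
    intro z hz z' hz' heq
    rw [mem_coe] at hz hz'
    rw [← hττ z (hEne z (hZS z hz)), ← hττ z' (hEne z' (hZS z' hz')), heq]
  have hdisj : Disjoint ((Ag ×ˢ Bg).image ζ) (((Ag ×ˢ Bg).image ζ).image τ) := by
    rw [disjoint_left]
    intro z hz hz'
    obtain ⟨z', hz'', rfl⟩ := mem_image.1 hz'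
    exact hSτ z' (hEne z' (hZS z' hz'')) ((hZS _ hz).trans (hZS _ hz'').symm)
  have h1 : ∑ z ∈ ((Ag ×ˢ Bg).image ζ).image τ, W p z u = ∑ z ∈ (Ag ×ˢ Bg).image ζ, W p z u := by
    rw [sum_image hτinj]
    apply sum_congr rfl
    intro z hz
    exact hWτ z (hEne z (hZS z hz))
  have h2 : ∑ z ∈ (Ag ×ˢ Bg).image ζ ∪ ((Ag ×ˢ Bg).image ζ).image τ, W p z u ≤ 1 := by
    rw [← sum_W p u]
    apply sum_le_sum_of_subset_of_nonneg (subset_univ _)
    intro z _ _
    exact (W_pos hp0 hp1 z u).le
  rw [sum_union hdisj, h1, hmass] at h2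
  linarith

theorem rigid_thm : S_rigid := by
  intro ι _ _ p A B hp0 hp1 h I u hm i
  have c1 := claim hp0 hp1 h I u hm
  have h' : AddPair B A := by
    intro b hb b' hb' a ha a' ha'
    have := h a ha a' ha' b hb b' hb'
    rw [hammingDist_comm b a, hammingDist_comm b' a', hammingDist_comm b a', hammingDist_comm b' a]
    omega
  have c2 := claim hp0 hp1 h' Iᶜ u (by
    rw [sum_comm] at hm
    simp only [mem_compl, not_not]
    simpa only [W_comm p] using hm)
  have hex : ∃ a₁ : ι → ZMod 3, a₁ ∈ A.filter (fun a : ι → ZMod 3 => ∀ i, i ∉ I → a i = u i) ∧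
      ∃ b₁ : ι → ZMod 3, b₁ ∈ B.filter (fun b : ι → ZMod 3 => ∀ i ∈ I, b i = u i) := by
    by_contra! hne
    have : ∑ a ∈ A.filter (fun a => ∀ i, i ∉ I → a i = u i),
        ∑ b ∈ B.filter (fun b => ∀ i ∈ I, b i = u i), W p a b = 0 := by
      apply sum_eq_zero
      intro a ha
      have : B.filter (fun b => ∀ i ∈ I, b i = u i) = ∅ := by
        rw [eq_empty_iff_forall_notMem]
        exact hne a ha
      rw [this]
      simp
    rw [this] at hm
    linarith
  obtain ⟨a₁, ha₁, b₁, hb₁⟩ := hex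
  have ha₁' := mem_filter.1 ha₁
  have hb₁' := mem_filter.1 hb₁
  have key : ∀ a ∈ A, ∀ b ∈ B, ∀ k, a k = u k ∨ b k = u k := by
    intro a ha b hb
    have h1 := h a ha a₁ ha₁'.1 b hb b₁ hb₁'.1
    have h2 : (hammingDist a b : ℤ) + hammingDist a₁ b₁ = hammingDist a b₁ + hammingDist a₁ b := by
      exact_mod_cast h1
    rw [dist_eq, dist_eq, dist_eq, dist_eq, ← sum_add_distrib, ← sum_add_distrib] at h2
    have hle : ∀ k, e (a k) (b k) + e (a₁ k) (b₁ k) ≤ e (a k) (b₁ k) + e (a₁ k) (b k) ∧
        (a k ≠ u k → b k ≠ u k →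
          e (a k) (b k) + e (a₁ k) (b₁ k) < e (a k) (b₁ k) + e (a₁ k) (b k)) := by
      intro k
      by_cases hk : k ∈ I
      · rw [hb₁'.2 k hk]
        by_cases hbk : b k = u k
        · rw [hbk]
          exact ⟨le_rfl, fun _ h => absurd rfl h⟩
        · rw [c1 b hb a₁ ha₁'.1 ha₁'.2 k hk hbk, e_self, e_of_ne (Ne.symm hbk)]
          have := e_le_one (a k) (b k)
          by_cases hak : a k = u k
          · exact ⟨by rw [hak, e_self, e_of_ne (Ne.symm hbk)]; norm_num, fun h => absurd hak h⟩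
          · rw [e_of_ne hak]
            exact ⟨by omega, fun _ _ => by omega⟩
      · rw [ha₁'.2 k hk]
        by_cases hak : a k = u k
        · rw [hak]
          exact ⟨by omega, fun h => absurd rfl h⟩
        · rw [c2 a ha b₁ hb₁'.1 (by simpa using hb₁'.2) k (by simpa using hk) hak, e_self,
            e_of_ne hak]
          have := e_le_one (a k) (b k)
          by_cases hbk : b k = u k
          · exact ⟨by rw [hbk, e_self, e_of_ne hak], fun _ h => absurd hbk h⟩
          · rw [e_of_ne (Ne.symm hbk)]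
            exact ⟨by omega, fun _ _ => by omega⟩
    intro k
    by_contra! hne
    have := sum_lt_sum (s := univ) (fun k _ => (hle k).1) ⟨k, mem_univ k, (hle k).2 hne.1 hne.2⟩
    omega
  by_cases hA : ∀ a ∈ A, a i = u i
  · left
    intro a ha a' ha'
    rw [hA a ha, hA a' ha']
  · right
    push Not at hA
    obtain ⟨a, ha, hne⟩ := hA
    intro b hb b' hb'
    rw [(key a ha b hb i).resolve_left hne, (key a ha b' hb' i).resolve_left hne]

end Helper27.CD.P5
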